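import Mathlib
import Pool.Agent.KS6_91.PL.Data

/-!
# MP_fe6d1a_gt, Q1: which subgroups of a non-Fuchsian pants-like `COL_2` group are convergence groups

The notions of the problem are those of the first section of
`Pool.Agent.KS6_91.PL.W983_PL_Defs`; `IsConvergence` is defined in `Pool.Agent.KS6_91.PL.ConvC`.
-/
set_option autoImplicit false

namespace Pool.Agent.Results.MP_fe6d1a_gt.LocallyConvergence

open Pool.Agent.KS6_91.PL.W983.PL Pool.Agent.KS6_91.PL.Conv

/-- There is a group `G` of orientation preserving homeomorphisms of the circle, free on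
`g 0, g 1, ...`, with two very full dense invariant laminations without common endpoints, such that
every nontrivial element of `G` has exactly two fixed points, every subgroup `H` of `G` satisfies
the hypotheses of Q1, and

* `H` is a convergence group if and only if for all `u`, `v` in `G` only finitely many of the
  elements `u * g k * v` belong to `H`;
* every finitely generated `H` is a convergence group;
* if `H` is not a convergence group, then no homeomorphism of the circle conjugates `H` to a group
  (discrete or not) of Moebius transformations; in particular `H` is not Fuchsian;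
* for the continuum many subgroups `H` generated by infinitely many of the `g k`, and in particular
  for `G` itself, this is the case. -/
theorem result :
    ∃ (g : ℕ → HC) (G : Subgroup HC), G = Subgroup.closure (Set.range g) ∧
      Function.Injective (FreeGroup.lift g) ∧
      -- the laminations
      (∃ Λ₁ Λ₂ : Set (Circle × Circle), IsLamination Λ₁ ∧ IsLamination Λ₂ ∧ Inv G Λ₁ ∧
        Inv G Λ₂ ∧ Dense (Ends Λ₁) ∧ Dense (Ends Λ₂) ∧ VeryFull Λ₁ ∧ VeryFull Λ₂ ∧
        Ends Λ₁ ∩ Ends Λ₂ = ∅) ∧
      -- every subgroup satisfies the hypotheses of Q1, with exactly two fixed points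
      (∀ H : Subgroup HC, H ≤ G → Countable H ∧ (∀ f ∈ H, OrientationPreserving f) ∧
        TorsionFree H ∧ Discrete H ∧ PantsLike H ∧
        ∀ f ∈ H, f ≠ 1 → {z : Circle | f z = z}.encard = 2) ∧
      -- which subgroups are convergence groups
      (∀ H : Subgroup HC, H ≤ G →
        (IsConvergence H ↔ ∀ u ∈ G, ∀ v ∈ G, {k : ℕ | u * g k * v ∈ H}.Finite)) ∧
      (∀ H : Subgroup HC, H ≤ G → H.FG → IsConvergence H) ∧
      -- the other ones are not conjugate to groups of Moebius transformations
      (∀ H : Subgroup HC, H ≤ G → ¬ IsConvergence H →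
        (¬ ∃ φ : HC, ∀ f ∈ H, IsMoebius (φ * f * φ⁻¹)) ∧ ¬ IsFuchsian H) ∧
      -- the subgroups generated by some of the `g k`
      (∀ A : Set ℕ, IsConvergence (Subgroup.closure (g '' A)) ↔ A.Finite) ∧
      (∀ A B : Set ℕ, Subgroup.closure (g '' A) = Subgroup.closure (g '' B) → A = B) ∧
      ¬ IsConvergence G ∧ ¬ IsFuchsian G := by
  obtain ⟨g, hg, hinj, hop, htf, hcount, hdisc, hfix, Λ₁, Λ₂, a1, a2, a3, a4, a5, a6, a7, a8, a9⟩ :=
    data
  have hG : (FreeGroup.lift g).range = Subgroup.closure (Set.range g) :=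
    FreeGroup.range_lift_eq_closure
  have hginj : Function.Injective g := by
    intro i j hij
    have h1 : FreeGroup.lift g (FreeGroup.of i) = FreeGroup.lift g (FreeGroup.of j) := by
      rw [FreeGroup.lift_apply_of, FreeGroup.lift_apply_of, hij]
    exact FreeGroup.of_injective (hinj h1)
  have hcl : ∀ A : Set ℕ, Subgroup.closure (g '' A) ≤ Subgroup.closure (Set.range g) := fun A =>
    Subgroup.closure_mono (Set.image_subset_range g A)
  have hconv : ∀ H : Subgroup HC, H ≤ Subgroup.closure (Set.range g) →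
      (IsConvergence H ↔ ∀ u ∈ Subgroup.closure (Set.range g),
        ∀ v ∈ Subgroup.closure (Set.range g), {k : ℕ | u * g k * v ∈ H}.Finite) := by
    intro H hH
    refine ⟨fun h u _ v _ => finite_of_conv hg hginj H h u v, fun h => ?_⟩
    refine convergence_of H fun M => finite_not_small hg H (hG ▸ hH) ?_ M
    rw [hG]
    exact h
  have hnot : ∀ H : Subgroup HC, H ≤ Subgroup.closure (Set.range g) → ¬ IsConvergence H →
      (¬ ∃ φ : HC, ∀ f ∈ H, IsMoebius (φ * f * φ⁻¹)) ∧ ¬ IsFuchsian H := by
    intro H hH hn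
    have h1 : ¬ ∃ φ : HC, ∀ f ∈ H, IsMoebius (φ * f * φ⁻¹) := by
      intro hφ
      exact hn ((hconv H hH).2 fun u _ v _ => finite_of_moebius hg H hφ u v)
    refine ⟨h1, ?_⟩
    rintro ⟨φ, K, -, hK, -, -, hφ⟩
    exact h1 ⟨φ, fun f hf => hK _ ((hφ f).1 hf)⟩
  have hfg : ∀ H : Subgroup HC, H ≤ Subgroup.closure (Set.range g) → H.FG → IsConvergence H := by
    intro H hH hF
    refine (hconv H hH).2 fun u hu v hv => ?_
    exact finite_of_fg hinj H (hG ▸ hH) hF u v (hG ▸ hu) (hG ▸ hv)
  have hA : ∀ A : Set ℕ, IsConvergence (Subgroup.closure (g '' A)) ↔ A.Finite := by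
    intro A
    constructor
    · intro h
      refine (finite_of_conv hg hginj _ h 1 1).subset ?_
      intro k hk
      show 1 * g k * 1 ∈ Subgroup.closure (g '' A)
      rw [one_mul, mul_one]
      exact Subgroup.subset_closure ⟨k, hk, rfl⟩
    · intro h
      refine hfg _ (hcl A) ⟨(h.image g).toFinset, ?_⟩
      rw [Set.Finite.coe_toFinset]
  have hAG : ¬ IsConvergence (Subgroup.closure (Set.range g)) := by
    rw [← Set.image_univ, hA]
    exact Set.infinite_univ
  refine ⟨g, Subgroup.closure (Set.range g), rfl, hinj, ?_, ?_, hconv, hfg, hnot, hA, ?_, hAG,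
    (hnot _ le_rfl hAG).2⟩
  · rw [← hG]
    exact ⟨Λ₁, Λ₂, a1, a2, a3, a4, a5, a6, a7, a8, a9⟩
  · intro H hH
    rw [← hG] at hH
    have h2 : ∀ f ∈ H, f ≠ 1 → {z : Circle | f z = z}.encard = 2 := by
      intro f hf hne
      obtain ⟨p, q, hpq, hz⟩ := hfix f (hH hf) hne
      rw [hz]
      exact Set.encard_pair hpq
    refine ⟨?_, fun f hf => hop f (hH hf), fun f hf => htf f (hH hf), ?_, ?_, h2⟩
    · have h3 : ((FreeGroup.lift g).range : Set HC).Countable := hcount
      exact (h3.mono hH).to_subtype
    · intro f hf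
      obtain ⟨U, h3, h4, h5⟩ := hdisc f (hH hf)
      exact ⟨U, h3, h4, fun k hk => h5 k (hH hk)⟩
    · refine ⟨Λ₁, Λ₂, a1, a2, fun f hf => a3 f (hH hf), fun f hf => a4 f (hH hf), a5, a6, a7, a8,
        ?_, ?_⟩
      · rw [Set.eq_empty_iff_forall_notMem]
        rintro ⟨a, b⟩ ⟨h3, h4⟩
        have h5 : a ∈ Ends Λ₁ ∩ Ends Λ₂ := ⟨⟨b, h3⟩, ⟨b, h4⟩⟩
        rw [a9] at h5
        exact h5
      · rw [a9, eq_comm, Set.eq_empty_iff_forall_notMem]
        rintro x ⟨f, hf, hne, hx⟩
        have h3 := h2 f hf hne
        rw [hx, Set.encard_singleton] at h3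
        norm_num at h3
  · -- the map is injective
    have key : ∀ A B : Set ℕ, Subgroup.closure (g '' A) ≤ Subgroup.closure (g '' B) → A ⊆ B := by
      intro A B h k hk
      by_contra hkB
      have h1 : g k ∈ Subgroup.closure (g '' B) := h (Subgroup.subset_closure ⟨k, hk, rfl⟩)
      have h3 : Subgroup.closure (g '' B) ≤ ((ex k).ker).map (FreeGroup.lift g) := by
        rw [Subgroup.closure_le]
        rintro _ ⟨i, hi, rfl⟩
        refine ⟨FreeGroup.of i, ?_, by rw [FreeGroup.lift_apply_of]⟩
        show FreeGroup.of i ∈ (ex k).ker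
        rw [MonoidHom.mem_ker, ex, FreeGroup.lift_apply_of, if_neg]
        rintro rfl
        exact hkB hi
      obtain ⟨w, hw, hwk⟩ := h3 h1
      have h4 : w = FreeGroup.of k := by
        apply hinj
        rw [hwk, FreeGroup.lift_apply_of]
      have h5 : ex k w = 1 := hw
      rw [h4, ex, FreeGroup.lift_apply_of, if_pos rfl] at h5
      have h6 := congrArg Multiplicative.toAdd h5
      simp at h6
    intro A B h
    exact Set.Subset.antisymm (key A B h.le) (key B A h.ge)

end Pool.Agent.Results.MP_fe6d1a_gt.LocallyConvergence
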