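import Pool.Agent.KS6_77.PantsSub.Main

set_option autoImplicit false

namespace Pool.Agent.Results.MP_fe6d1a_gt.ManySubgroups

open Pool.Agent.W983.PL Pool.Agent.KS6_77.PantsSub Cardinal

/-- There is a free group `G` of homeomorphisms of the circle with free generators `g 0, g 1, ...`
such that every subgroup `K` of `G` satisfies all the conditions of the question (and each
nontrivial element has exactly two fixed points), and such that:

* a group `K` of homeomorphisms which contains `a * g k * b` for infinitely many `k`, for two fixed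
  homeomorphisms `a`, `b`, is not Fuchsian, and is not conjugate by any homeomorphism to a group of
  Moebius maps, discrete or not;
* so no subgroup of finite index of `G` is conjugate to a group of Moebius maps, and neither is the
  subgroup generated by an infinite set of the `g k`;
* exactly continuum many subgroups of `G` are not conjugate to a group of Moebius maps. -/
theorem result : ∃ g : ℕ → HC, Function.Injective (FreeGroup.lift g) ∧
    (∀ K : Subgroup HC, K ≤ (FreeGroup.lift g).range →
      Countable K ∧ (∀ h ∈ K, OrientationPreserving h) ∧ TorsionFree K ∧ Discrete K ∧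
        PantsLike K ∧ Cusps K = ∅ ∧ ∀ h ∈ K, h ≠ 1 → {z : Circle | h z = z}.encard = 2) ∧
    (∀ (a b : HC) (A : Set ℕ), A.Infinite → ∀ K : Subgroup HC, (∀ k ∈ A, a * g k * b ∈ K) →
      (∀ φ : HC, ∃ h ∈ K, ¬ IsMoebius (φ * h * φ⁻¹)) ∧ ¬ IsFuchsian K) ∧
    (∀ K : Subgroup HC, K ≤ (FreeGroup.lift g).range →
      K.relIndex (FreeGroup.lift g).range ≠ 0 →
      (∀ φ : HC, ∃ h ∈ K, ¬ IsMoebius (φ * h * φ⁻¹)) ∧ ¬ IsFuchsian K) ∧
    (∀ A : Set ℕ, A.Infinite →
      (∀ φ : HC, ∃ h ∈ Subgroup.closure (g '' A), ¬ IsMoebius (φ * h * φ⁻¹)) ∧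
        ¬ IsFuchsian (Subgroup.closure (g '' A))) ∧
    #{K : Subgroup HC // K ≤ (FreeGroup.lift g).range ∧
      ∀ φ : HC, ∃ h ∈ K, ¬ IsMoebius (φ * h * φ⁻¹)} = 𝔠 := by
  obtain ⟨F, g, hgen, hinj, hcount, hop, htf, hdisc, hpants, hcusp, hfix⟩ := exists_gen
  refine ⟨g, hinj, fun K hK => good_sub hK hcount hop htf hdisc hpants hcusp hfix,
    fun a b A hA K hK => ?_, fun K _ hK => ?_, fun A hA => ?_, card_eq hgen hinj hcount⟩
  · have h := notMoebius_of hgen hA hK
    exact ⟨h, h.not_fuchsian⟩
  · have h := notMoebius_finiteIndex hgen hK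
    exact ⟨h, h.not_fuchsian⟩
  · have h : NotMoebius (Subgroup.closure (g '' A)) :=
      notMoebius_of hgen hA (a := 1) (b := 1) fun k hk => by
        rw [one_mul, mul_one]
        exact Subgroup.subset_closure ⟨k, hk, rfl⟩
    exact ⟨h, h.not_fuchsian⟩

end Pool.Agent.Results.MP_fe6d1a_gt.ManySubgroups
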